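import Pool.Agent.Helper94.CI.Alg
import Pool.Agent.Helper94.CI.Exist

/-!
# MP_96ba2a_an: the generic separable commutative radical Banach algebra has proper closed ideals

`P0` is the algebra of the complex polynomials without constant term in `x₀, x₁, …`, `Rad` the set of the
algebra seminorms `N` on `P0` with `N (x_i) ≤ 1` for which every `f ∈ P0` is quasinilpotent (infinitely many
powers `f^(n+1)` with `N (f^(n+1)) ≤ ε^(n+1)`, for every `ε > 0`), with the topology of pointwise convergence.
A Banach algebra `A` with a homomorphism `φ : P0 → A` of dense range and `‖φ f‖ = N f` is the completion of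
`(P0, N)`; in this way `Rad` parametrises the separable commutative radical Banach algebras with a generating
sequence in the unit ball.
-/

open Pool.Agent.Helper94.CI

namespace Pool.Agent.Results.MP_96ba2a_an.GenericNilpotents

/-- (1) `Rad` is a nonempty Baire space. (2) Every `N ∈ Rad` is the seminorm of a commutative Banach algebra
generated by a sequence. (3) For all `N` in a comeager subset of `Rad` every such Banach algebra is
infinite-dimensional, its nilpotent elements are dense, and it has a closed ideal different from `0` and from the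
whole algebra. -/
theorem result :
    Rad.Nonempty ∧ BaireSpace Rad ∧
    (∀ N ∈ Rad, ∃ (A : Type) (_ : NonUnitalNormedCommRing A) (_ : NormedSpace ℂ A)
      (_ : IsScalarTower ℂ A A) (_ : SMulCommClass ℂ A A) (_ : CompleteSpace A) (φ : P0 →ₙₐ[ℂ] A),
      (∀ f, ‖φ f‖ = N f) ∧ DenseRange φ) ∧
    ∀ᶠ N : Rad in residual Rad,
      ∀ (A : Type) [NonUnitalNormedCommRing A] [NormedSpace ℂ A] [IsScalarTower ℂ A A] [SMulCommClass ℂ A A]
        [CompleteSpace A] (φ : P0 →ₙₐ[ℂ] A), (∀ f, ‖φ f‖ = N.1 f) → DenseRange φ →
        ¬ FiniteDimensional ℂ A ∧ Dense {a : A | Nilp a} ∧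
          ∃ I : Submodule ℂ A, IsClosed (I : Set A) ∧ (∀ a b : A, b ∈ I → a * b ∈ I) ∧ I ≠ ⊥ ∧ I ≠ ⊤ := by
  refine ⟨nonempty_Rad, baire_Rad, fun N hN => exists_banach hN.1, ?_⟩
  filter_upwards [gen_residual] with N hN
  intro A _ _ _ _ _ φ h1 h2
  exact ⟨not_findim hN h1 h2, dense_nilp hN h1 h2, closed_ideal hN h1 h2⟩

end Pool.Agent.Results.MP_96ba2a_an.GenericNilpotents
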