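import Mathlib
import Pool.Agent.Helper63.NU.Loc

set_option autoImplicit false

/-!
# Equivalent forms of the closed ideal problem: separable algebras, and one element

Q1 asks for a proper closed ideal in every infinite-dimensional commutative Banach algebra.  If `A`
has none, then `x` lies in the closure of `g A` for all `x` and ALL `g ≠ 0`.  We show that a
counterexample exists as soon as some commutative Banach algebra has one quasinilpotent element
`x ≠ 0` in the closure of `x² A` such that this holds for this `x` and the `g` in a small ball around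
`x`; and that a counterexample, if there is one, can be taken separable.
-/

namespace Pool.Agent.Results.MP_96ba2a_an.LocalCriterion

open scoped Topology

universe u

/-- `A` has a closed ideal other than `0` and `A`. -/
def HasProperClosedIdeal (A : Type u) [NonUnitalNormedCommRing A] [NormedSpace ℂ A] : Prop :=
  ∃ I : Submodule ℂ A, IsClosed (I : Set A) ∧ I ≠ ⊥ ∧ I ≠ ⊤ ∧ ∀ a x : A, x ∈ I → a * x ∈ I

/-- The subalgebra `B` has no closed ideal other than `0` and `B`. -/
def SimpleSub {A : Type u} [NonUnitalNormedCommRing A] [NormedSpace ℂ A]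
    (B : NonUnitalSubalgebra ℂ A) : Prop :=
  ∀ I : Submodule ℂ A, IsClosed (I : Set A) → I ≤ B.toSubmodule →
    (∀ a ∈ B, ∀ x ∈ I, a * x ∈ I) → I = ⊥ ∨ I = B.toSubmodule

/-- `A` is radical: every element has a quasi-inverse. -/
def Radical (A : Type u) [NonUnitalNormedCommRing A] : Prop := ∀ a : A, ∃ b : A, a + b = a * b

/-- If `x` is in the closure of `x² A` then it is a limit of elements `g` of the closure of `x A` such
that `x` is not in the closure of `g A`. -/
def Perturb {A : Type u} [NonUnitalNormedCommRing A] (x : A) : Prop :=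
  x ∈ closure (Set.range fun c => x * x * c) → ∀ δ : ℝ, 0 < δ →
    ∃ g ∈ closure (Set.range fun c => x * c), ‖g - x‖ < δ ∧ x ∉ closure (Set.range fun c => g * c)

/-- Q1. -/
def Q1 : Prop :=
  ∀ (A : Type u) [NonUnitalNormedCommRing A] [NormedSpace ℂ A] [IsScalarTower ℂ A A]
    [SMulCommClass ℂ A A] [CompleteSpace A], ¬ FiniteDimensional ℂ A → HasProperClosedIdeal A

/-- Q1 for separable algebras. -/
def Q1Sep : Prop :=
  ∀ (A : Type u) [NonUnitalNormedCommRing A] [NormedSpace ℂ A] [IsScalarTower ℂ A A]
    [SMulCommClass ℂ A A] [CompleteSpace A] [TopologicalSpace.SeparableSpace A],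
    ¬ FiniteDimensional ℂ A → HasProperClosedIdeal A

/-- The perturbation property for all quasinilpotent `x ≠ 0` in commutative Banach algebras. -/
def PerturbAll : Prop :=
  ∀ (A : Type u) [NonUnitalNormedCommRing A] [NormedSpace ℂ A] [IsScalarTower ℂ A A]
    [SMulCommClass ℂ A A] [CompleteSpace A] (x : A), x ≠ 0 →
    spectralRadius ℂ (ContinuousLinearMap.mul ℂ A x) = 0 → Perturb x

/-- The perturbation property for all `x ≠ 0` in separable radical commutative Banach algebras. -/
def PerturbSep : Prop :=
  ∀ (A : Type u) [NonUnitalNormedCommRing A] [NormedSpace ℂ A] [IsScalarTower ℂ A A]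
    [SMulCommClass ℂ A A] [CompleteSpace A] [TopologicalSpace.SeparableSpace A],
    Radical A → ∀ x : A, x ≠ 0 → Perturb x

/-- Commutative complex Banach algebras, unital or not.
(1) Q1, Q1 for separable algebras, the perturbation property of all quasinilpotent elements and the
perturbation property of the elements of separable radical algebras are equivalent.
(2) Let `A` be infinite-dimensional, not necessarily complete.  `A` has no closed ideal other than
`0` and `A` if and only if every countable subset of `A` lies in a closed separable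
infinite-dimensional subalgebra `B` which has no closed ideal other than `0` and `B`. -/
theorem result :
    List.TFAE [Q1.{u}, Q1Sep.{u}, PerturbAll.{u}, PerturbSep.{u}] ∧
    (∀ (A : Type u) [NonUnitalNormedCommRing A] [NormedSpace ℂ A] [IsScalarTower ℂ A A]
        [SMulCommClass ℂ A A], ¬ FiniteDimensional ℂ A →
      (¬ HasProperClosedIdeal A ↔
        ∀ T : Set A, T.Countable → ∃ B : NonUnitalSubalgebra ℂ A, T ⊆ B ∧
          IsClosed (B : Set A) ∧ TopologicalSpace.IsSeparable (B : Set A) ∧
          ¬ FiniteDimensional ℂ B ∧ SimpleSub B)) := by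
  have hsep : Q1Sep.{u} → Q1.{u} := by
    intro h A _ _ _ _ _ hdim
    by_contra hA
    obtain ⟨B, -, hBc, hBs, hBd, hB⟩ := Pool.Helper63.NU.exists_separable (A := A) hA hdim ∅
      Set.countable_empty
    let _ : NormedSpace ℂ B := Pool.Helper63.NU.subNS B
    have : CompleteSpace B := hBc.completeSpace_coe
    have : TopologicalSpace.SeparableSpace B := hBs.separableSpace
    exact Pool.Helper63.NU.sub_ideal B hBc hB (h B hBd)
  have hpert : Q1.{u} → PerturbAll.{u} := by
    intro h A _ _ _ _ _ x hx hr hx2 δ hδ
    by_contra hcon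
    push Not at hcon
    let _ := Pool.Helper63.NU.subNS (Pool.Helper63.NU.cloSub x)
    have : CompleteSpace (Pool.Helper63.NU.cloSub x) :=
      (Pool.Helper63.NU.isClosed_cloSub x).completeSpace_coe
    obtain ⟨M, B, hBc, hBd, hB⟩ := Pool.Helper63.NU.exists_simple'
      (fun θ hθ => Pool.Helper63.NU.pow_le_of_radius hr hθ) hx hx2 hδ hcon
    let _ : NormedSpace ℂ B := Pool.Helper63.NU.subNS B
    have : CompleteSpace B := hBc.completeSpace_coe
    exact Pool.Helper63.NU.sub_ideal B hBc hB (h B hBd)
  have hback : PerturbSep.{u} → Q1Sep.{u} := by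
    intro h A _ _ _ _ _ _ hdim
    by_contra hA
    have hA' : ¬ Pool.Helper63.NU.HasProperClosedIdeal A := hA
    have hrad : Radical A := Pool.Helper63.NU.radical_of_simple hA' hdim
    obtain ⟨x, hx⟩ : ∃ x : A, x ≠ 0 := by
      by_contra hcon
      push Not at hcon
      apply hdim
      have : Subsingleton A := ⟨fun a b => by rw [hcon a, hcon b]⟩
      infer_instance
    have hcl : ∀ g : A, g ≠ 0 → x ∈ closure (Set.range fun c => g * c) := fun g hg =>
      Pool.Helper63.NU.dense_range_L hA' hdim hg x
    have hxx : x * x ≠ 0 := fun h0 =>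
      (Pool.Helper63.NU.no_zero_div hA' hdim h0).elim hx hx
    obtain ⟨g, -, hg1, hg2⟩ := h A hrad x hx (hcl _ hxx) ‖x‖ (norm_pos_iff.2 hx)
    refine hg2 (hcl g ?_)
    rintro rfl
    rw [zero_sub, norm_neg] at hg1
    exact lt_irrefl _ hg1
  refine ⟨?_, ?_⟩
  · tfae_have 1 → 3 := hpert
    tfae_have 3 → 4 := fun h A _ _ _ _ _ _ hrad x hx =>
      h A x hx (Pool.Helper63.NU.radius_of_radical hrad x)
    tfae_have 4 → 2 := hback
    tfae_have 2 → 1 := hsep
    tfae_finish
  · intro A _ _ _ _ hdim
    constructor
    · intro hA T hT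
      exact Pool.Helper63.NU.exists_separable hA hdim T hT
    · intro h
      refine Pool.Helper63.NU.of_separable fun T hT => ?_
      obtain ⟨B, h1, h2, -, -, h3⟩ := h T hT
      exact ⟨B, h1, h2, h3⟩

end Pool.Agent.Results.MP_96ba2a_an.LocalCriterion
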