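import Mathlib
import Pool.Agent.Helper63.NU.Ord

set_option autoImplicit false

/-!
# The closed ideal problem for algebras with an order, an averaging operator, a grading or a finite
# group of automorphisms

Q1 asks for a proper closed ideal in every infinite-dimensional commutative Banach algebra.  We find
one if the algebra has a multiplicative cone and a positive multiplier which dominates a positive
operator of rank one, for instance if it has a minimal system with nonnegative structure constants.
If the algebra has a bounded averaging operator, a grading by an abelian group with bounded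
projections, or a finite group of automorphisms, then Q1 is reduced to the range of the averaging
operator, to the component of degree zero and to the algebra of the fixed elements.
-/

namespace Pool.Agent.Results.MP_96ba2a_an.OrderSymmetry

open scoped NNReal Topology

universe u v

/-- The subspace of the elements fixed by all `σ g`. -/
def fixed {A : Type u} [NonUnitalNormedCommRing A] [NormedSpace ℂ A] {G : Type v}
    (σ : G → A →L[ℂ] A) : Submodule ℂ A where
  carrier := {a | ∀ g, σ g a = a}
  zero_mem' := fun g => map_zero _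
  add_mem' := fun {a b} ha hb g => by rw [map_add, ha g, hb g]
  smul_mem' := fun c a ha g => by rw [map_smul, ha g]

/-- Let `A` be an infinite-dimensional commutative complex Banach algebra.  If one of (1)-(5) holds
then `A` has a closed ideal different from `0` and `A`.
(1) There are a set `K` closed under sums, products and multiplication by nonnegative numbers whose
complex span is dense, a functional `φ ≠ 0` which is nonnegative on `K`, some `e ≠ 0` in `K` and a
bounded multiplier `S` with `S K ⊆ K` and `S x - φ(x) e ∈ K` for all `x ∈ K`.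
(2) There are a family `e i` with dense span and functionals `φ i` with `φ i (e j) = δ i j` such that
all products `e i e j` lie in the closed convex cone generated by the `e l`.
(3) There is a bounded `T ≠ 0` with `T(T(a) b) = T(a) T(b)` such that the closure of `T(A)` is
finite-dimensional or has a closed subspace other than zero and itself stable under the
multiplication by all `T(a)`.
(4) There are bounded `P γ`, `γ` in an abelian group, not all zero, with `P γ P γ = P γ` and
`P γ (a b) = a P (γ - δ) b` if `P δ a = a`, such that `P 0 (A)` is finite-dimensional or has a closed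
subspace other than zero and itself stable under the multiplication by all elements of `P 0 (A)`.
(5) There is a finite group of bounded automorphisms such that the algebra of the fixed elements is
finite-dimensional or has a closed ideal other than zero and itself. -/
theorem result (A : Type u) [NonUnitalNormedCommRing A] [NormedSpace ℂ A]
    [IsScalarTower ℂ A A] [SMulCommClass ℂ A A] [CompleteSpace A]
    (hdim : ¬ FiniteDimensional ℂ A)
    (h : (∃ (K : Set A) (φ : A →L[ℂ] ℂ) (e : A) (S : A →L[ℂ] A),
            (∀ x ∈ K, ∀ y ∈ K, x + y ∈ K) ∧ (∀ x ∈ K, ∀ y ∈ K, x * y ∈ K) ∧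
            (∀ t : ℝ, 0 ≤ t → ∀ x ∈ K, (t : ℂ) • x ∈ K) ∧
            Dense (Submodule.span ℂ K : Set A) ∧ φ ≠ 0 ∧
            (∀ x ∈ K, ∃ t : ℝ, 0 ≤ t ∧ φ x = t) ∧ e ∈ K ∧ e ≠ 0 ∧
            (∀ a x : A, S (a * x) = S a * x) ∧ (∀ x ∈ K, S x ∈ K) ∧
            ∀ x ∈ K, S x - φ x • e ∈ K) ∨
         (∃ (ι : Type v) (e : ι → A) (φ : ι → A →L[ℂ] ℂ),
            (∀ i, φ i (e i) = 1) ∧ (∀ i j, i ≠ j → φ i (e j) = 0) ∧
            Dense (Submodule.span ℂ (Set.range e) : Set A) ∧
            ∀ i j, e i * e j ∈ closure (Submodule.span ℝ≥0 (Set.range e) : Set A)) ∨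
         (∃ T : A →L[ℂ] A, T ≠ 0 ∧ (∀ a b, T (T a * b) = T a * T b) ∧
            (FiniteDimensional ℂ (LinearMap.range (T : A →ₗ[ℂ] A)).topologicalClosure ∨
              ∃ I : Submodule ℂ A, IsClosed (I : Set A) ∧ I ≠ ⊥ ∧
                I < (LinearMap.range (T : A →ₗ[ℂ] A)).topologicalClosure ∧
                ∀ a, ∀ x ∈ I, T a * x ∈ I)) ∨
         (∃ (Γ : Type v) (_ : AddCommGroup Γ) (P : Γ → A →L[ℂ] A), (∃ γ, P γ ≠ 0) ∧
            (∀ γ a, P γ (P γ a) = P γ a) ∧
            (∀ γ δ a b, P δ a = a → P γ (a * b) = a * P (γ - δ) b) ∧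
            (FiniteDimensional ℂ (LinearMap.range (P 0 : A →ₗ[ℂ] A)) ∨
              ∃ I : Submodule ℂ A, IsClosed (I : Set A) ∧ I ≠ ⊥ ∧
                I < LinearMap.range (P 0 : A →ₗ[ℂ] A) ∧ ∀ a, ∀ x ∈ I, P 0 a * x ∈ I)) ∨
         (∃ (G : Type v) (_ : Group G) (_ : Finite G) (σ : G → A →L[ℂ] A),
            (∀ a, σ 1 a = a) ∧ (∀ g h a, σ (g * h) a = σ g (σ h a)) ∧
            (∀ g a b, σ g (a * b) = σ g a * σ g b) ∧
            (FiniteDimensional ℂ (fixed σ) ∨
              ∃ I : Submodule ℂ A, IsClosed (I : Set A) ∧ I ≠ ⊥ ∧ I < fixed σ ∧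
                ∀ a ∈ fixed σ, ∀ x ∈ I, a * x ∈ I))) :
    ∃ I : Submodule ℂ A, IsClosed (I : Set A) ∧ I ≠ ⊥ ∧ I ≠ ⊤ ∧
      ∀ a x : A, x ∈ I → a * x ∈ I := by
  by_contra hA
  have hA' : ¬ Pool.Helper63.NU.HasProperClosedIdeal A := hA
  rcases h with ⟨K, φ, e, S, h1, h2, h3, h4, h5, h6, h7, h8, h9, h10, h11⟩ |
    ⟨ι, e, φ, h1, h2, h3, h4⟩ | ⟨T, h1, h2, h3⟩ | ⟨Γ, _, P, h1, h2, h3, h4⟩ |
    ⟨G, _, _, σ, h1, h2, h3, h4⟩
  · exact Pool.Helper63.NU.no_order hA' hdim K h1 h3 h2 h4 φ h5 h6 e h7 h8 S h9 h10 h11
  · exact Pool.Helper63.NU.no_basis hA' hdim e φ h1 h2 h3 h4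
  · obtain ⟨h4, h5⟩ := Pool.Helper63.NU.averaging hA' hdim T h1 h2
      (LinearMap.range (T : A →ₗ[ℂ] A)).topologicalClosure (by
        rw [Submodule.topologicalClosure_coe, LinearMap.coe_range]
        rfl)
    rcases h3 with h3 | ⟨I, hI1, hI2, hI3, hI4⟩
    · exact h4 h3
    · rcases h5 I hI1 hI3.le hI4 with h6 | h6
      · exact hI2 h6
      · exact hI3.ne h6
  · have h5 := Pool.Helper63.NU.graded_zero hA' hdim P h1 h2 h3
    have hav : ∀ a b, P 0 (P 0 a * b) = P 0 a * P 0 b := by
      intro a b
      rw [h3 0 0 _ _ (h2 0 a), sub_zero]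
    have hcl : (LinearMap.range (P 0 : A →ₗ[ℂ] A) : Set A) = closure (Set.range (P 0)) := by
      rw [LinearMap.coe_range]
      change Set.range (P 0) = _
      have h6 : Set.range (P 0) = {a | P 0 a = a} := by
        ext a
        constructor
        · rintro ⟨b, rfl⟩
          exact h2 0 b
        · intro ha
          exact ⟨a, ha⟩
      have h7 : IsClosed (Set.range (P 0)) := by
        rw [h6]
        exact isClosed_eq (P 0).continuous continuous_id
      rw [h7.closure_eq]
    obtain ⟨h6, h7⟩ := Pool.Helper63.NU.averaging hA' hdim (P 0) h5 hav _ hcl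
    rcases h4 with h4 | ⟨I, hI1, hI2, hI3, hI4⟩
    · exact h6 h4
    · rcases h7 I hI1 hI3.le hI4 with h8 | h8
      · exact hI2 h8
      · exact hI3.ne h8
  · have := Fintype.ofFinite G
    obtain ⟨e, he, hfe⟩ := Pool.Helper63.NU.fixed_ne_zero hA' hdim σ h1 h2 h3
    let T : A →L[ℂ] A := ∑ g, σ g
    have hTa : ∀ a, T a = ∑ g, σ g a := fun a => by
      simp only [T, _root_.sum_apply]
    have hTf : ∀ a, (∀ g, σ g a = a) → T a = (Fintype.card G : ℂ) • a := by
      intro a ha
      rw [hTa, Finset.sum_congr rfl fun g _ => ha g, Finset.sum_const, Finset.card_univ,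
        Nat.cast_smul_eq_nsmul]
    have hcard : (Fintype.card G : ℂ) ≠ 0 := Nat.cast_ne_zero.2 Fintype.card_ne_zero
    have hT0 : T ≠ 0 := by
      intro h
      have h5 := hTf e hfe
      rw [h, _root_.zero_apply] at h5
      exact smul_ne_zero hcard he h5.symm
    have hfT : ∀ a g, σ g (T a) = T a := by
      intro a g
      rw [hTa, map_sum, Finset.sum_congr rfl fun h _ => (h2 g h a).symm]
      exact Fintype.sum_equiv (Equiv.mulLeft g) _ _ fun h => rfl
    have hav : ∀ a b, T (T a * b) = T a * T b := by
      intro a b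
      rw [hTa (T a * b), Finset.sum_congr rfl fun g _ => h3 g (T a) b,
        Finset.sum_congr rfl fun g _ => by rw [hfT a g], ← Finset.mul_sum, ← hTa]
    have hrange : Set.range T = {a | ∀ g, σ g a = a} := by
      ext a
      constructor
      · rintro ⟨b, rfl⟩
        exact hfT b
      · intro ha
        refine ⟨(Fintype.card G : ℂ)⁻¹ • a, ?_⟩
        rw [map_smul, hTf a ha, smul_smul, inv_mul_cancel₀ hcard, one_smul]
    have hcl : (fixed σ : Set A) = closure (Set.range T) := by
      have h7 : IsClosed (Set.range T) := by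
        rw [hrange]
        have h8 : {a | ∀ g, σ g a = a} = ⋂ g, {a | σ g a = a} := by
          ext a
          simp
        rw [h8]
        exact isClosed_iInter fun g => isClosed_eq (σ g).continuous continuous_id
      rw [h7.closure_eq, hrange]
      rfl
    obtain ⟨h6, h7⟩ := Pool.Helper63.NU.averaging hA' hdim T hT0 hav _ hcl
    rcases h4 with h4 | ⟨I, hI1, hI2, hI3, hI4⟩
    · exact h6 h4
    · rcases h7 I hI1 hI3.le (fun a x hx => hI4 _ (hfT a) _ hx) with h8 | h8
      · exact hI2 h8
      · exact hI3.ne h8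

end Pool.Agent.Results.MP_96ba2a_an.OrderSymmetry
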