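import Mathlib
import Pool.Agent.Helper63.NU.Growth
import Pool.Agent.Helper63.NU.Ess
import Pool.Agent.Helper63.NU.Hil

set_option autoImplicit false

/-!
# The closed ideal problem for commutative Banach algebras with uniform division

Q1 asks for a proper closed ideal in every infinite-dimensional commutative Banach algebra.  If `A`
has none, then `x` lies in the closure of `fA` for all nonzero `f` and all `x`: every `x` can be
divided approximately by every `f`.  We prove that `A` has a proper closed ideal as soon as this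
division is controlled in one of the following senses.
-/

namespace Pool.Agent.Results.MP_96ba2a_an.UniformDivision

universe u

/-- Iterated squares: `sq e j = e^(2^j)`. -/
def sq {A : Type u} [NonUnitalNormedCommRing A] (e : A) : ℕ → A
  | 0 => e
  | j + 1 => sq e j * sq e j

theorem sq_eq {A : Type u} [NonUnitalNormedCommRing A] (e : A) (j : ℕ) :
    sq e j = Pool.Helper63.NU.sqi e j := by
  induction j with
  | zero => rfl
  | succ j ih => rw [sq, Pool.Helper63.NU.sqi, ih]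

/-- Let `A` be an infinite-dimensional commutative complex Banach algebra.  If one of (1)-(6) holds
then `A` has a closed ideal different from `0` and `A`.
(1) For some `x`, `ε` with `ε (2‖x‖ + ε) < ‖x²‖`, some `R` and some closed subspace `V` of finite
codimension, every unit vector `f` of `V` has a `g` with `‖g‖ ≤ R` and `‖f g - x‖ ≤ ε`.
(2) For some compact set `C` not containing `0`: for every `δ > 0` there are `R` and a closed
subspace `V` of finite codimension such that for every unit vector `f` of `V` there are `g` with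
`‖g‖ ≤ R` and `c ∈ C` with `‖f g - c‖ ≤ δ`.
(3) For some `x`, `ε` as in (1), some nonzero `e` and some numbers `R j ≥ 1` with
`∑ 2^(-j) log (R j) < ∞`, for every `j` and `f = e^(2^j)/‖e^(2^j)‖` there is a `g` with
`‖g‖ ≤ R j` and `‖f g - x‖ ≤ ε`.
(4) For some `x ≠ 0` and every `c > 0` there are `f, g` and a compact operator `K` with
`‖f g - x‖ ≤ c` and `‖f‖ ‖L_g - K‖ < c`, where `L_g` is the multiplication by `g`.
(5) For some `x ≠ 0` and some nonempty open `G ⊆ A` there are arbitrarily small `δ > 0` for which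
there is an `R` such that every `f ∈ G` has a `g` with `‖g‖ ≤ R` and `‖f g - x‖ ≤ δ`.
(6) For some `x`, `e`, `R` and `0 ≤ ε < ‖x‖` every `y` with `‖y - x‖ ≤ ε` has a `g` with `‖g‖ ≤ R` and
`‖e y g - x‖ ≤ ε`. -/
theorem result (A : Type u) [NonUnitalNormedCommRing A] [NormedSpace ℂ A]
    [IsScalarTower ℂ A A] [SMulCommClass ℂ A A] [CompleteSpace A]
    (hdim : ¬ FiniteDimensional ℂ A)
    (h : (∃ (x : A) (ε R : ℝ) (V : Submodule ℂ A), ε * (2 * ‖x‖ + ε) < ‖x * x‖ ∧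
            IsClosed (V : Set A) ∧ FiniteDimensional ℂ (A ⧸ V) ∧
            ∀ f ∈ V, ‖f‖ = 1 → ∃ g : A, ‖g‖ ≤ R ∧ ‖f * g - x‖ ≤ ε) ∨
         (∃ C : Set A, IsCompact C ∧ (0 : A) ∉ C ∧ ∀ δ : ℝ, 0 < δ →
            ∃ (R : ℝ) (V : Submodule ℂ A), IsClosed (V : Set A) ∧ FiniteDimensional ℂ (A ⧸ V) ∧
            ∀ f ∈ V, ‖f‖ = 1 → ∃ g : A, ‖g‖ ≤ R ∧ ∃ c ∈ C, ‖f * g - c‖ ≤ δ) ∨
         (∃ (x e : A) (ε : ℝ) (R : ℕ → ℝ), ε * (2 * ‖x‖ + ε) < ‖x * x‖ ∧ e ≠ 0 ∧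
            (∀ j, 1 ≤ R j) ∧ (Summable fun j : ℕ => Real.log (R j) / 2 ^ j) ∧
            ∀ j, ∃ g : A, ‖g‖ ≤ R j ∧ ‖((‖sq e j‖ : ℂ)⁻¹ • sq e j) * g - x‖ ≤ ε) ∨
         (∃ x : A, x ≠ 0 ∧ ∀ c : ℝ, 0 < c → ∃ (f g : A) (K : A →L[ℂ] A),
            IsCompactOperator K ∧ ‖f * g - x‖ ≤ c ∧
            ‖f‖ * ‖ContinuousLinearMap.mul ℂ A g - K‖ < c) ∨
         (∃ (x : A) (G : Set A), x ≠ 0 ∧ IsOpen G ∧ G.Nonempty ∧ ∀ δ₀ : ℝ, 0 < δ₀ →
            ∃ δ : ℝ, 0 < δ ∧ δ < δ₀ ∧ ∃ R : ℝ, ∀ f ∈ G, ∃ g : A, ‖g‖ ≤ R ∧ ‖f * g - x‖ ≤ δ) ∨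
         (∃ (x e : A) (ε R : ℝ), 0 ≤ ε ∧ ε < ‖x‖ ∧
            ∀ y : A, ‖y - x‖ ≤ ε → ∃ g : A, ‖g‖ ≤ R ∧ ‖e * y * g - x‖ ≤ ε)) :
    ∃ I : Submodule ℂ A, IsClosed (I : Set A) ∧ I ≠ ⊥ ∧ I ≠ ⊤ ∧
      ∀ a x : A, x ∈ I → a * x ∈ I := by
  by_contra hA
  have hA' : ¬ Pool.Helper63.NU.HasProperClosedIdeal A := hA
  rcases h with ⟨x, ε, R, V, hε, hV, hfin, hdiv⟩ | ⟨C, hC, hC0, hdiv⟩ |
    ⟨x, e, ε, R, hε, he, hR, hsum, hdiv⟩ | ⟨x, hx, hdiv⟩ | ⟨x, G, hx, hG, hG', hdiv⟩ |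
    ⟨x, e, ε, R, hε, hx, hdiv⟩
  · obtain ⟨f, hfV, hf1, hf⟩ :=
      Pool.Helper63.NU.no_uniform_division hA' hdim x hε R V hV hfin
    obtain ⟨g, hg, hfg⟩ := hdiv f hfV hf1
    exact absurd (hf g hg) (not_lt.mpr hfg)
  · obtain ⟨δ, hδ, hC'⟩ := Pool.Helper63.NU.no_compact_target hA' hdim C hC hC0
    obtain ⟨R, V, hV, hfin, hdiv'⟩ := hdiv δ hδ
    obtain ⟨f, hfV, hf1, hf⟩ := hC' R V hV hfin
    obtain ⟨g, hg, c, hc, hfg⟩ := hdiv' f hfV hf1
    exact absurd (hf g hg c hc) (not_lt.mpr hfg)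
  · obtain ⟨j, hf⟩ :=
      Pool.Helper63.NU.no_slow_division hA' hdim x hε he R hR hsum
    obtain ⟨g, hg, hfg⟩ := hdiv j
    rw [sq_eq] at hfg
    exact absurd (hf g hg) (not_lt.mpr hfg)
  · obtain ⟨c, hc, hf⟩ := Pool.Helper63.NU.essential_bound hA' hdim hx
    obtain ⟨f, g, K, hK, hfg, hlt⟩ := hdiv c hc
    exact absurd (hf f g hfg K hK) (not_le.mpr hlt)
  · exact Pool.Helper63.NU.no_bounded_open hA' hdim hx hG hG' hdiv
  · exact Pool.Helper63.NU.no_return hA' hdim x e hε hx hdiv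

end Pool.Agent.Results.MP_96ba2a_an.UniformDivision
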